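import Pool.Agent.Helper17_ALLC.Space

/-!
# MP_eb7e96_an: negative answer to Q1

For the fixed constant `lam = 12` there are bounded `12`-ALLC metric spaces, homeomorphic to
domains in `S²`, with two distinct non-trivial components of the metric boundary whose relative
distance is as small as we like.
-/

set_option autoImplicit false

open Set Metric UniformSpace Topology

open scoped ENNReal

namespace Pool.Agent.Results.MP_eb7e96_an.NotSeparated

open Pool.Agent.ALLC

/-- There is `lam ≥ 1` such that for every `ε > 0` there is a (bounded) `lam`-ALLC metric space `X`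
homeomorphic to a domain in `S²` which has two distinct non-trivial boundary components `E`, `F`
with `Δ(E,F) < ε`. So no function `δ(lam) > 0` as asked for in Q1 exists. -/
theorem result :
    ∃ lam : ℝ, 1 ≤ lam ∧ ∀ ε : ℝ≥0∞, 0 < ε →
      ∃ (X : Type) (_ : MetricSpace X),
        HomeoSphereDomain X ∧ IsALLC X lam ∧ Bornology.IsBounded (Set.univ : Set X) ∧
        ∃ E F : Set (Completion X),
          IsNontrivialBoundaryComponent E ∧ IsNontrivialBoundaryComponent F ∧ E ≠ F ∧
          relDist E F < ε := by
  refine ⟨12, by norm_num, fun ε hε => ?_⟩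
  -- choose `M` large
  obtain ⟨M, hM1, hM⟩ : ∃ M : ℝ, 1 ≤ M ∧ 2 / ENNReal.ofReal M < ε := by
    obtain ⟨n, hn⟩ := ENNReal.exists_nat_mul_gt (a := ε) (b := 2) hε.ne' (by norm_num)
    have hn0 : (n : ℝ≥0∞) ≠ 0 := by
      rintro h
      rw [h, zero_mul] at hn
      exact absurd hn (by simp)
    have hn1 : (1 : ℝ) ≤ n := by
      have : n ≠ 0 := by exact_mod_cast hn0
      exact_mod_cast Nat.one_le_iff_ne_zero.2 this
    refine ⟨n, hn1, ?_⟩
    rw [ENNReal.ofReal_natCast]
    apply ENNReal.div_lt_of_lt_mul'
    exact hn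
  refine ⟨Strip M, inferInstance, strip_homeoSphereDomain M, strip_isALLC M, ?_,
    Comp M 1, Comp M (-1), comp_isComponent M (Or.inl rfl), comp_isComponent M (Or.inr rfl), ?_,
    lt_of_le_of_lt (relDist_comp_le hM1) hM⟩
  · rw [Metric.isBounded_iff]
    exact ⟨2 * max 1 M, fun p _ q _ => strip_bounded M p q⟩
  · intro h
    obtain ⟨z, hz⟩ := (comp_isComponent M (κ := 1) (Or.inl rfl)).1.nonempty
    have h1 : (Phi M z).2 = 1 * prof M (Phi M z).1.val := hz
    have h2 : (Phi M z).2 = (-1) * prof M (Phi M z).1.val := by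
      rw [h] at hz; exact hz
    have := prof_pos M (Phi M z).1.val
    linarith

end Pool.Agent.Results.MP_eb7e96_an.NotSeparated
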