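import Pool.Agent.Helper98_ALLC.Main

/-!
# MP_eb7e96_an: uniform relative separation when the completion is proper

For a metric space `X` homeomorphic to a domain in `S²` whose completion is proper (for instance
compact), two distinct non-trivial boundary components, at least one of which is bounded, have
relative distance at least `1 / (1156 lam ^ 4)` if `X` is `lam`-ALLC.
-/

set_option autoImplicit false

open Set Metric UniformSpace Topology

open scoped ENNReal

namespace Pool.Agent.Results.MP_eb7e96_an.ProperCompletion

open Pool.Agent.ALLC

/-- Let `X` be a `lam`-ALLC metric space (`lam ≥ 1`) homeomorphic to a domain in `S²`, whose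
completion is proper (closed balls are compact; in particular this holds if the completion is
compact).  If `E ≠ F` are non-trivial components of the metric boundary and `E` or `F` is bounded,
then `Δ(E,F) ≥ 1 / (1156 lam ^ 4)`. -/
theorem result :
    ∀ lam : ℝ, 1 ≤ lam → ∀ (X : Type) [MetricSpace X], HomeoSphereDomain X → IsALLC X lam →
      ProperSpace (Completion X) →
      ∀ E F : Set (Completion X),
        IsNontrivialBoundaryComponent E → IsNontrivialBoundaryComponent F → E ≠ F →
        (Bornology.IsBounded E ∨ Bornology.IsBounded F) →
        ENNReal.ofReal (1 / (1156 * lam ^ 4)) ≤ relDist E F := by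
  intro lam hlam X _ hX hA hc E F hE hF hne hb
  exact Comp.separated hlam hX hA hc hE hF hne hb

end Pool.Agent.Results.MP_eb7e96_an.ProperCompletion
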